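import Pool.Agent.MP_aa6c6a_nt.H72.Sound
import Pool.Agent.MP_aa6c6a_nt.H72.All

/-! The conjecture fails at `n = 4722`. -/

theorem Pool.Agent.Results.MP_aa6c6a_nt.Counterexample.result :
    ¬ ∀ n : ℕ, 1 < n → ∃ k : ℕ, 0 < k ∧ k < n ∧ ((k + 1) ^ Nat.totient (n - k) + k).Prime := by
  intro h
  obtain ⟨k, h0, h1, h2⟩ := h 4722 (by norm_num)
  exact Pool.Agent.MP_aa6c6a_nt.H72.ok_sound
    (Pool.Agent.MP_aa6c6a_nt.H72.all_ok k h0 h1) h2
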